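import Pool.Agent.Work.MP_e3f5d9_al_cx.COMPLETE

/-!
# The iterated monodromy groups of quadratic polynomials which have intermediate growth

`PCF.postCrit`, `PCF.Vertex`, `PCF.ActsAs` and `PCF.IMG` (file `Work/MP_80ff4e_al/Defs.lean`) are the
post-critical set, the tree of preimages of the base point, the action of a loop on it by path
lifting, and the iterated monodromy group.  `R4.IntermediateGrowth` is in
`Work/MP_e3f5d9_al/Defs.lean`.  `R4C.IsDisk`, `R4C.ProperDegTwo` and `R4C.Renormalizable` (file
`Work/MP_e3f5d9_al_cx/Defs.lean`) are the notions of the problem.

The proof, in short.  A renormalizable kneading sequence gives a quadratic-like restriction, and so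
does a periodic critical point.  Hence the critical point is strictly preperiodic, the kneading
sequence is not renormalizable, the iterated monodromy group is the group of the kneading system
(by landing of the external rays), and the class of its cuts is mixing.  For such systems the
growth is subexponential (general theorem, `Work/MP_e3f5d9_al`) and superpolynomial.
-/

set_option autoImplicit false

open Polynomial

namespace Pool.Agent.Results.MP_e3f5d9_al.AllParameters

/-- Let `z ^ 2 + c` be post-critically finite and non-renormalizable, and let `t` be a base point
outside the post-critical set.  The iterated monodromy group of `z ^ 2 + c` has intermediate growth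
if and only if `c` is neither `0` nor `-2`. -/
theorem result (c : ℂ) (hfin : (PCF.postCrit (X ^ 2 + C c)).Finite)
    (hnr : ¬ R4C.Renormalizable c) (t : ℂ) (ht : t ∉ PCF.postCrit (X ^ 2 + C c)) :
    R4.IntermediateGrowth (PCF.IMG (X ^ 2 + C c) t) ↔ c ≠ 0 ∧ c ≠ -2 :=
  R4C.theorem_FIN c hfin hnr t ht

end Pool.Agent.Results.MP_e3f5d9_al.AllParameters
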